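import Pool.Agent.Helper50.FE.Goals

/-!
# FE-CHEB: Chebyshev's inequality on the box
-/

set_option autoImplicit false

open Finset

namespace Pool.Agent.Helper86.FE

open Pool.Agent.Helper50.FE

/-- the centred coordinate -/
noncomputable def cx {m : ℕ} (r : Fin m → ℕ) (i : Fin m) (a : Fin m → ℕ) : ℝ :=
  (a i : ℝ) / (r i : ℝ) - 1 / 2

theorem sum_cx {m : ℕ} (r a : Fin m → ℕ) : ∑ i, cx r i a = wt r a - (m : ℝ) / 2 := by
  unfold cx wt
  rw [Finset.sum_sub_distrib]
  simp
  ring

theorem mem_box {m : ℕ} (r a : Fin m → ℕ) : a ∈ box r ↔ ∀ i, a i ≤ r i := by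
  unfold Pool.Agent.Helper50.FE.box
  simp [Fintype.mem_piFinset, Nat.lt_succ_iff]

theorem cross {m : ℕ} (r : Fin m → ℕ) (hr : ∀ i, 1 ≤ r i) (i j : Fin m) (hij : i ≠ j) :
    ∑ a ∈ box r, cx r i a * cx r j a = 0 := by
  classical
  have key : ∀ a ∈ box r,
      cx r i a * cx r j a
        + cx r i (Function.update a i (r i - a i)) * cx r j (Function.update a i (r i - a i)) = 0 := by
    intro a ha
    have hai : a i ≤ r i := (mem_box r a).1 ha i
    have hri : (r i : ℝ) ≠ 0 := by
      have := hr i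
      positivity
    unfold cx
    rw [Function.update_self, Function.update_of_ne (Ne.symm hij)]
    rw [Nat.cast_sub hai]
    field_simp
    ring
  refine Finset.sum_involution (fun a _ => Function.update a i (r i - a i)) key ?_ ?_ ?_
  · intro a ha hne heq
    apply hne
    have h := key a ha
    have heq' : Function.update a i (r i - a i) = a := heq
    rw [heq'] at h
    linarith
  · intro a ha
    rw [mem_box] at ha ⊢
    intro k
    by_cases hk : k = i
    · subst hk
      rw [Function.update_self]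
      omega
    · rw [Function.update_of_ne hk]
      exact ha k
  · intro a ha
    have hai : a i ≤ r i := (mem_box r a).1 ha i
    funext k
    by_cases hk : k = i
    · subst hk
      simp
      omega
    · simp [hk]

theorem cx_sq {m : ℕ} (r : Fin m → ℕ) (hr : ∀ i, 1 ≤ r i) (i : Fin m) (a : Fin m → ℕ)
    (ha : a ∈ box r) : cx r i a * cx r i a ≤ 1 / 4 := by
  have hai : a i ≤ r i := (mem_box r a).1 ha i
  have hri : (0 : ℝ) < (r i : ℝ) := by
    have := hr i
    positivity
  have h1 : (a i : ℝ) / (r i : ℝ) ≤ 1 := by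
    rw [div_le_one hri]
    exact_mod_cast hai
  have h0 : (0 : ℝ) ≤ (a i : ℝ) / (r i : ℝ) := by positivity
  unfold cx
  nlinarith

theorem variance {m : ℕ} (r : Fin m → ℕ) (hr : ∀ i, 1 ≤ r i) :
    ∑ a ∈ box r, (wt r a - (m : ℝ) / 2) ^ 2 ≤ (m : ℝ) / 4 * ((box r).card : ℝ) := by
  classical
  have h1 : ∀ a, (wt r a - (m : ℝ) / 2) ^ 2 = ∑ i, ∑ j, cx r i a * cx r j a := by
    intro a
    rw [← sum_cx, sq, Finset.sum_mul_sum]
  calc ∑ a ∈ box r, (wt r a - (m : ℝ) / 2) ^ 2
      = ∑ a ∈ box r, ∑ i, ∑ j, cx r i a * cx r j a := Finset.sum_congr rfl (fun a _ => h1 a)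
    _ = ∑ i, ∑ j, ∑ a ∈ box r, cx r i a * cx r j a := by
        rw [Finset.sum_comm]
        refine Finset.sum_congr rfl (fun i _ => ?_)
        rw [Finset.sum_comm]
    _ = ∑ i, ∑ a ∈ box r, cx r i a * cx r i a := by
        refine Finset.sum_congr rfl (fun i _ => ?_)
        rw [Finset.sum_eq_single i]
        · intro j _ hj
          exact cross r hr i j (Ne.symm hj)
        · intro h
          exact absurd (Finset.mem_univ i) h
    _ ≤ ∑ _i : Fin m, ∑ _a ∈ box r, (1 / 4 : ℝ) := by
        refine Finset.sum_le_sum (fun i _ => Finset.sum_le_sum (fun a ha => ?_))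
        exact cx_sq r hr i a ha
    _ = (m : ℝ) / 4 * ((box r).card : ℝ) := by
        simp
        ring

theorem goalCHEB : Pool.Agent.Helper50.FE.CHEB := by
  intro m r hr
  rcases Nat.eq_zero_or_pos m with hm | hm
  · subst hm
    have : ((box r).filter
        (fun a => Real.sqrt ((0 : ℕ) : ℝ) < |wt r a - (((0 : ℕ) : ℝ)) / 2|)) = ∅ := by
      apply Finset.filter_eq_empty_iff.2
      intro a _
      unfold wt
      simp
    rw [this]
    simp
  · have hm' : (0 : ℝ) < (m : ℝ) := by exact_mod_cast hm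
    have hv := variance r hr
    set F := (box r).filter (fun a => Real.sqrt m < |wt r a - (m : ℝ) / 2|) with hF
    have h2 : (m : ℝ) * (F.card : ℝ) ≤ ∑ a ∈ box r, (wt r a - (m : ℝ) / 2) ^ 2 := by
      calc (m : ℝ) * (F.card : ℝ) = ∑ _a ∈ F, (m : ℝ) := by
            simp
            ring
        _ ≤ ∑ a ∈ F, (wt r a - (m : ℝ) / 2) ^ 2 := by
            refine Finset.sum_le_sum (fun a ha => ?_)
            have h3 := (Finset.mem_filter.1 ha).2
            have h4 : (Real.sqrt m) ^ 2 < |wt r a - (m : ℝ) / 2| ^ 2 := by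
              have := Real.sqrt_nonneg (m : ℝ)
              nlinarith
            rw [Real.sq_sqrt hm'.le, sq_abs] at h4
            exact h4.le
        _ ≤ ∑ a ∈ box r, (wt r a - (m : ℝ) / 2) ^ 2 :=
            Finset.sum_le_sum_of_subset_of_nonneg (Finset.filter_subset _ _)
              (fun a _ _ => sq_nonneg _)
    have h5 : (m : ℝ) * (4 * (F.card : ℝ)) ≤ (m : ℝ) * ((box r).card : ℝ) := by
      nlinarith
    have h6 : 4 * (F.card : ℝ) ≤ ((box r).card : ℝ) := le_of_mul_le_mul_left h5 hm'
    exact_mod_cast h6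

end Pool.Agent.Helper86.FE
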